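import Pool.Agent.N754.FG.Stm

/-!
Roquette's theorem, the function field step.
-/

set_option autoImplicit false

open Polynomial IsDedekindDomain

namespace Pool.Agent.N49.FG

open Pool.Agent.N754.FG

section Fin

/-- every finitely generated commutative group in the form of modules over the integers -/
theorem fg_iff_mod {G : Type} [CommGroup G] : Group.FG G ↔ Module.Finite ℤ (Additive G) := by
  rw [Module.Finite.iff_addGroup_fg, ← GroupFG.iff_add_fg]

end Fin

section Sub

variable {M κ : Type} [Field M] [Field κ]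

theorem adj_le {s : Set M} (S : Subring M) (h : s ⊆ S) : ∀ x ∈ Algebra.adjoin ℤ s, x ∈ S := by
  intro x hx
  have h1 : Algebra.adjoin ℤ s ≤ subalgebraOfSubring S := Algebra.adjoin_le h
  exact h1 hx

/-- inclusion of `ℤ[s]` in a subring containing `s` -/
def incl {s : Set M} (S : Subring M) (h : s ⊆ S) : Algebra.adjoin ℤ s →+* S where
  toFun x := ⟨x, adj_le S h x x.2⟩
  map_one' := rfl
  map_mul' _ _ := rfl
  map_zero' := rfl
  map_add' _ _ := rfl

theorem int_incl {s : Set M} (S : Subring M) (h : s ⊆ S) (u : M)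
    (hu : IsIntegral (Algebra.adjoin ℤ s) u) : IsIntegral S u := by
  have h1 : (algebraMap S M).comp (incl S h) = (RingHom.id M).comp (algebraMap (Algebra.adjoin ℤ s) M) := rfl
  exact hu.map_of_comp_eq (incl S h) (RingHom.id M) h1

theorem int_map {s : Set M} (B : Subring M) (hs : s ⊆ B) (π : B →+* κ) (u : M) (huB : u ∈ B)
    (hu : IsIntegral (Algebra.adjoin ℤ s) u) :
    IsIntegral (Algebra.adjoin ℤ (π '' {x | (x : M) ∈ s})) (π ⟨u, huB⟩) := by
  set t : Set κ := π '' {x | (x : M) ∈ s} with ht
  have h0 : s ⊆ ((Algebra.adjoin ℤ t).toSubring.comap π).map B.subtype := by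
    intro x hx
    refine ⟨⟨x, hs hx⟩, ?_, rfl⟩
    exact Algebra.subset_adjoin ⟨⟨x, hs hx⟩, hx, rfl⟩
  have h1 : ∀ x : Algebra.adjoin ℤ s, (π.comp (incl B hs)) x ∈ (Algebra.adjoin ℤ t).toSubring := by
    rintro ⟨x, hx⟩
    obtain ⟨y, hy, hyx⟩ := adj_le _ h0 x hx
    have : (incl B hs) ⟨x, hx⟩ = y := Subtype.ext hyx.symm
    rw [RingHom.comp_apply, this]
    exact hy
  let φ : Algebra.adjoin ℤ s →+* Algebra.adjoin ℤ t :=
    (π.comp (incl B hs)).codRestrict (Algebra.adjoin ℤ t).toSubring h1
  obtain ⟨p, hm, hp⟩ := hu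
  have h2 : Polynomial.eval₂ (incl B hs) (⟨u, huB⟩ : B) p = 0 := by
    apply Subtype.ext
    have := Polynomial.hom_eval₂ p (incl B hs) B.subtype ⟨u, huB⟩
    exact this.trans hp
  refine ⟨p.map φ, hm.map φ, ?_⟩
  rw [Polynomial.eval₂_map]
  have h3 : (algebraMap (Algebra.adjoin ℤ t) κ).comp φ = π.comp (incl B hs) := rfl
  rw [h3]
  have := Polynomial.hom_eval₂ p (incl B hs) π ⟨u, huB⟩
  rw [h2, map_zero] at this
  exact this.symm

end Sub

section Dedekind

set_option linter.style.haveILetI false

/-- Lemma A: finitely many valuations decide whether a unit is integral. -/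
theorem lemmaA (k M : Type) [Field k] [CharZero k] [Field M] (g : RatFunc k →+* M) (hg : g.Finite)
    (s : Set M) (hs : s.Finite) :
    ∃ (ι : Type) (_ : Finite ι) (ψ : Mˣ →* (ι → Multiplicative ℤ)), ∀ u ∈ IU s, ψ u = 1 →
      (g.comp (algebraMap k[X] (RatFunc k))).IsIntegralElem (u : M) := by
  letI : Algebra (RatFunc k) M := g.toAlgebra
  letI : Algebra k[X] M := (g.comp (algebraMap k[X] (RatFunc k))).toAlgebra
  haveI : IsScalarTower k[X] (RatFunc k) M := IsScalarTower.of_algebraMap_eq' rfl
  haveI : FiniteDimensional (RatFunc k) M := hg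
  haveI : CharZero (RatFunc k) := charZero_of_injective_algebraMap (algebraMap k (RatFunc k)).injective
  haveI : IsDedekindDomain (integralClosure k[X] M) :=
    integralClosure.isDedekindDomain k[X] (RatFunc k) M
  haveI : IsFractionRing (integralClosure k[X] M) M :=
    integralClosure.isFractionRing_of_finite_extension (RatFunc k) M
  let S : Set (HeightOneSpectrum (integralClosure k[X] M)) :=
    ⋃ x ∈ s, HeightOneSpectrum.Support (integralClosure k[X] M) x
  have hS : S.Finite :=
    hs.biUnion fun x _ => HeightOneSpectrum.Support.finite (integralClosure k[X] M) x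
  refine ⟨S, hS.to_subtype, ?_, ?_⟩
  · exact MonoidHom.pi fun v =>
      (WithZero.unitsWithZeroEquiv (α := Multiplicative ℤ)).toMonoidHom.comp
        (Units.map ((v.1.valuation M).toMonoidWithZeroHom : M →* WithZero (Multiplicative ℤ)))
  · intro u hu hψ
    have key : ∀ v : HeightOneSpectrum (integralClosure k[X] M), v.valuation M (u : M) ≤ 1 := by
      intro v
      by_cases hv : v ∈ S
      · have h1 := congrFun hψ ⟨v, hv⟩
        simp only [MonoidHom.pi_apply, MonoidHom.comp_apply, Pi.one_apply] at h1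
        have h2 : Units.map ((v.valuation M).toMonoidWithZeroHom :
            M →* WithZero (Multiplicative ℤ)) u = 1 := by
          apply (WithZero.unitsWithZeroEquiv (α := Multiplicative ℤ)).injective
          rw [map_one]
          exact h1
        have h3 := congrArg Units.val h2
        rw [Units.coe_map, Units.val_one] at h3
        exact le_of_eq h3
      · have h1 : s ⊆ (v.valuation M).integer := by
          intro x hx
          by_contra h
          apply hv
          have h' : ¬ v.valuation M x ≤ 1 := h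
          rw [not_le] at h'
          exact Set.mem_biUnion hx h'
        have h2 := int_incl _ h1 (u : M) hu.1
        exact (Valuation.integer.integers (v.valuation M)).mem_of_integral h2
    obtain ⟨a, ha⟩ := HeightOneSpectrum.mem_integers_of_valuation_le_one M (u : M) key
    rw [← ha]
    exact a.2

end Dedekind

section Invol

variable (k : Type) [Field k]

/-- the substitution `X ↦ 1/X` -/
noncomputable def inv0 : k[X] →+* RatFunc k :=
  Polynomial.eval₂RingHom (algebraMap k (RatFunc k)) (RatFunc.X)⁻¹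

/-- the reciprocal relation -/
theorem inv0_rev (p : k[X]) : algebraMap k[X] (RatFunc k) (reverse p) =
    inv0 k p * RatFunc.X ^ p.natDegree := by
  have hX : (RatFunc.X : RatFunc k) ≠ 0 := RatFunc.X_ne_zero
  let _ : Invertible ((RatFunc.X : RatFunc k)⁻¹) := invertibleOfNonzero (inv_ne_zero hX)
  have h := Polynomial.eval₂_reverse_mul_pow (algebraMap k (RatFunc k)) ((RatFunc.X : RatFunc k)⁻¹) p
  have h1 : ⅟((RatFunc.X : RatFunc k)⁻¹) = RatFunc.X := by
    rw [invOf_eq_inv, inv_inv]
  rw [h1] at h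
  have h2 : Polynomial.eval₂ (algebraMap k (RatFunc k)) RatFunc.X (reverse p) =
      algebraMap k[X] (RatFunc k) (reverse p) := by
    rw [← RatFunc.algebraMap_X]
    have := Polynomial.hom_eval₂ (reverse p) C (algebraMap k[X] (RatFunc k)) X
    rw [Polynomial.eval₂_C_X] at this
    exact this.symm
  have h3 : inv0 k p = Polynomial.eval₂ (algebraMap k (RatFunc k)) ((RatFunc.X : RatFunc k)⁻¹) p := rfl
  rw [h3, ← h, h2, mul_assoc, ← mul_pow, inv_mul_cancel₀ hX, one_pow, mul_one]

theorem inv0_inj : Function.Injective (inv0 k) := by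
  rw [injective_iff_map_eq_zero]
  intro p hp
  have h := inv0_rev k p
  rw [hp, zero_mul] at h
  have h1 : reverse p = 0 := by
    apply IsFractionRing.injective k[X] (RatFunc k)
    rw [h, map_zero]
  rwa [Polynomial.reverse_eq_zero] at h1

/-- the involution `X ↦ 1/X` of `k(X)` -/
noncomputable def inv1 : RatFunc k →+* RatFunc k :=
  IsFractionRing.lift (inv0_inj k)

theorem inv1_poly (p : k[X]) : inv1 k (algebraMap k[X] (RatFunc k) p) = inv0 k p :=
  IsFractionRing.lift_algebraMap (inv0_inj k) p

theorem inv1_C (c : k) : inv1 k (algebraMap k (RatFunc k) c) = algebraMap k (RatFunc k) c := by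
  have h : algebraMap k (RatFunc k) c = algebraMap k[X] (RatFunc k) (C c) := rfl
  rw [h, inv1_poly]
  exact Polynomial.eval₂_C _ _

theorem inv1_X : inv1 k RatFunc.X = (RatFunc.X)⁻¹ := by
  rw [← RatFunc.algebraMap_X, inv1_poly]
  unfold inv0
  rw [Polynomial.coe_eval₂RingHom, Polynomial.eval₂_X, RatFunc.algebraMap_X]

theorem inv1_inv1 (x : RatFunc k) : inv1 k (inv1 k x) = x := by
  have h : (inv1 k).comp (inv1 k) = RingHom.id (RatFunc k) := by
    apply IsLocalization.ringHom_ext (nonZeroDivisors k[X])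
    apply Polynomial.ringHom_ext
    · intro a
      have h1 : algebraMap k[X] (RatFunc k) (C a) = algebraMap k (RatFunc k) a := rfl
      simp only [RingHom.comp_apply, RingHom.id_apply, h1, inv1_C]
    · simp only [RingHom.comp_apply, RingHom.id_apply, RatFunc.algebraMap_X, inv1_X, map_inv₀,
        inv_inv]
  exact congrArg (fun f => f x) h

/-- `k[X] ∩ k[1/X] = k` -/
theorem const_of {p q : k[X]} (h : inv1 k (algebraMap k[X] (RatFunc k) p) =
    algebraMap k[X] (RatFunc k) q) : ∃ c : k, p = C c := by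
  have h1 := inv0_rev k p
  rw [← inv1_poly, h, ← RatFunc.algebraMap_X, ← map_pow, ← map_mul] at h1
  have h2 := IsFractionRing.injective k[X] (RatFunc k) h1
  by_cases hn : p.natDegree = 0
  · exact ⟨_, Polynomial.eq_C_of_natDegree_eq_zero hn⟩
  · exfalso
    have h3 := congrArg (fun r => Polynomial.coeff r 0) h2
    simp only [Polynomial.coeff_zero_reverse] at h3
    rw [Polynomial.mul_coeff_zero, Polynomial.coeff_X_pow, if_neg (Ne.symm hn), mul_zero] at h3
    rw [Polynomial.leadingCoeff_eq_zero] at h3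
    rw [h3] at hn
    exact hn Polynomial.natDegree_zero

end Invol

section Alg

set_option linter.style.haveILetI false

variable {k M : Type} [Field k] [Field M]

theorem exists_min (g : RatFunc k →+* M) (u : M)
    (h : (g.comp (algebraMap k[X] (RatFunc k))).IsIntegralElem u) :
    ∃ P : (RatFunc k)[X], P.Monic ∧ Irreducible P ∧ Polynomial.eval₂ g u P = 0 := by
  letI : Algebra (RatFunc k) M := g.toAlgebra
  have h1 : IsIntegral (RatFunc k) u := by
    obtain ⟨p, hm, hp⟩ := h
    refine ⟨p.map (algebraMap k[X] (RatFunc k)), hm.map _, ?_⟩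
    rw [Polynomial.eval₂_map]
    exact hp
  exact ⟨minpoly (RatFunc k) u, minpoly.monic h1, minpoly.irreducible h1,
    minpoly.aeval (RatFunc k) u⟩

theorem coeffs_int (g : RatFunc k →+* M) (u : M)
    (h : (g.comp (algebraMap k[X] (RatFunc k))).IsIntegralElem u) (P : (RatFunc k)[X])
    (hm : P.Monic) (hirr : Irreducible P) (hroot : Polynomial.eval₂ g u P = 0) (i : ℕ) :
    ∃ a : k[X], P.coeff i = algebraMap k[X] (RatFunc k) a := by
  letI : Algebra (RatFunc k) M := g.toAlgebra
  letI : Algebra k[X] M := (g.comp (algebraMap k[X] (RatFunc k))).toAlgebra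
  haveI : IsScalarTower k[X] (RatFunc k) M := IsScalarTower.of_algebraMap_eq' rfl
  haveI : FaithfulSMul k[X] M := by
    rw [faithfulSMul_iff_algebraMap_injective]
    exact g.injective.comp (IsFractionRing.injective k[X] (RatFunc k))
  have h1 : IsIntegral k[X] u := h
  have h2 := minpoly.isIntegrallyClosed_eq_field_fractions' (RatFunc k) h1
  have h3 : P = minpoly (RatFunc k) u := minpoly.eq_of_irreducible_of_monic hirr hroot hm
  rw [h3, h2, Polynomial.coeff_map]
  exact ⟨_, rfl⟩

theorem int_k (f : RatFunc k →+* M) (u : M)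
    (h1 : (f.comp (algebraMap k[X] (RatFunc k))).IsIntegralElem u)
    (h2 : ((f.comp (inv1 k)).comp (algebraMap k[X] (RatFunc k))).IsIntegralElem u) :
    (f.comp (algebraMap k (RatFunc k))).IsIntegralElem u := by
  obtain ⟨P, hm, hirr, hroot⟩ := exists_min f u h1
  have e1 := coeffs_int f u h1 P hm hirr hroot
  let e : RatFunc k ≃+* RatFunc k :=
    RingEquiv.ofRingHom (inv1 k) (inv1 k) (RingHom.ext (inv1_inv1 k)) (RingHom.ext (inv1_inv1 k))
  have hirr' : Irreducible (P.map (inv1 k)) := by
    have := (MulEquiv.irreducible_iff (Polynomial.mapEquiv e)).mpr hirr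
    exact this
  have hroot' : Polynomial.eval₂ (f.comp (inv1 k)) u (P.map (inv1 k)) = 0 := by
    rw [Polynomial.eval₂_map, RingHom.comp_assoc]
    have : (inv1 k).comp (inv1 k) = RingHom.id _ := RingHom.ext (inv1_inv1 k)
    rw [this, RingHom.comp_id]
    exact hroot
  have e2 := coeffs_int (f.comp (inv1 k)) u h2 (P.map (inv1 k)) (hm.map _) hirr' hroot'
  have hl : P ∈ Polynomial.lifts (algebraMap k (RatFunc k)) := by
    rw [Polynomial.lifts_iff_coeff_lifts]
    intro i
    obtain ⟨a, ha⟩ := e1 i
    obtain ⟨b, hb⟩ := e2 i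
    rw [Polynomial.coeff_map, ha] at hb
    obtain ⟨c, hc⟩ := const_of k hb
    exact ⟨c, by rw [ha, hc]; rfl⟩
  obtain ⟨q, hq1, -, hq2⟩ := Polynomial.lifts_and_natDegree_eq_and_monic hl hm
  refine ⟨q, hq2, ?_⟩
  rw [← Polynomial.eval₂_map, hq1]
  exact hroot

end Alg

section Final

set_option linter.style.haveILetI false

theorem fin_of_inj {G H : Type} [CommGroup G] [CommGroup H] (φ : G →* H)
    (hφ : Function.Injective φ) (h : Group.FG H) : Group.FG G := by
  rw [fg_iff_mod] at h ⊢
  exact Module.Finite.of_injective (MonoidHom.toAdditive φ).toIntLinearMap hφ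

theorem fin_of_ker {G H : Type} [CommGroup G] [CommGroup H] (φ : G →* H)
    (h : Group.FG H) (h' : Group.FG φ.ker) : Group.FG G := by
  rw [fg_iff_mod] at h h' ⊢
  have h1 : IsNoetherian ℤ (Additive G) := by
    refine isNoetherian_of_range_eq_ker (MonoidHom.toAdditive φ.ker.subtype).toIntLinearMap
      (MonoidHom.toAdditive φ).toIntLinearMap ?_
    ext x
    constructor
    · rintro ⟨y, rfl⟩
      exact y.2
    · intro hx
      exact ⟨⟨x, hx⟩, rfl⟩
  exact inferInstance

theorem rq1 : RQ1 := by
  intro k M _ _ _ f hf hκ s hs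
  obtain ⟨ι₁, hι₁, ψ₁, hψ₁⟩ := lemmaA k M f hf s hs
  have hf' : (f.comp (inv1 k)).Finite :=
    hf.comp (RingHom.Finite.of_surjective _ fun x => ⟨inv1 k x, inv1_inv1 k x⟩)
  obtain ⟨ι₂, hι₂, ψ₂, hψ₂⟩ := lemmaA k M (f.comp (inv1 k)) hf' s hs
  letI : Algebra (RatFunc k) M := f.toAlgebra
  letI : Algebra k[X] M := (f.comp (algebraMap k[X] (RatFunc k))).toAlgebra
  letI : Algebra k M := (f.comp (algebraMap k (RatFunc k))).toAlgebra
  haveI : IsScalarTower k[X] (RatFunc k) M := IsScalarTower.of_algebraMap_eq' rfl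
  haveI : IsScalarTower k k[X] M := IsScalarTower.of_algebraMap_eq' rfl
  haveI : FiniteDimensional (RatFunc k) M := hf
  haveI : CharZero (RatFunc k) := charZero_of_injective_algebraMap (algebraMap k (RatFunc k)).injective
  let A := integralClosure k[X] M
  haveI hA1 : Module.Finite k[X] A := IsIntegralClosure.finite k[X] (RatFunc k) M A
  have hA2 : Algebra.FiniteType k A := Algebra.FiniteType.trans (S := k[X]) inferInstance inferInstance
  let A0 : Subalgebra k M := A.restrictScalars k
  have hA0 : A0.FG := by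
    rw [Subalgebra.fg_iff_finiteType]
    exact hA2
  let B : Subalgebra k M := A0 ⊔ Algebra.adjoin k s
  have hB : B.FG := hA0.sup (Subalgebra.fg_def.mpr ⟨s, hs, rfl⟩)
  haveI hB' : Algebra.FiniteType k B := (Subalgebra.fg_iff_finiteType B).mp hB
  obtain ⟨m, hm⟩ := Ideal.exists_maximal B
  letI : Field (B ⧸ m) := Ideal.Quotient.field m
  haveI : Algebra.FiniteType k (B ⧸ m) :=
    Algebra.FiniteType.of_surjective (Ideal.Quotient.mkₐ k m) (Ideal.Quotient.mkₐ_surjective k m)
  haveI : FiniteDimensional k (B ⧸ m) := finite_of_finite_type_of_isJacobsonRing k (B ⧸ m)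
  let π : B.toSubring →+* (B ⧸ m) := Ideal.Quotient.mk m
  have hsB : s ⊆ B.toSubring := fun x hx =>
    (le_sup_right : Algebra.adjoin k s ≤ B) (Algebra.subset_adjoin hx)
  have hkB : ∀ x : M, IsIntegral k x → x ∈ B.toSubring := by
    intro x hx
    have : x ∈ A := hx.tower_top
    exact (le_sup_left : A0 ≤ B) this
  set t : Set (B ⧸ m) := π '' {x | (x : M) ∈ s} with ht
  have htf : t.Finite := (hs.preimage Subtype.val_injective.injOn).image _
  have hIt : Group.FG (IU t) := (Group.fg_iff_subgroup_fg _).mpr (hκ (B ⧸ m) t htf)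
  -- the homomorphism to the values
  let g : IU s →* ((ι₁ → Multiplicative ℤ) × (ι₂ → Multiplicative ℤ)) :=
    (ψ₁.prod ψ₂).comp (IU s).subtype
  have hint : ∀ u : IU s, u ∈ g.ker → IsIntegral k ((u : Mˣ) : M) := by
    intro u hu
    have h1 : ψ₁ u = 1 := congrArg Prod.fst hu
    have h2 : ψ₂ u = 1 := congrArg Prod.snd hu
    exact int_k f _ (hψ₁ u u.2 h1) (hψ₂ u u.2 h2)
  let f0 : g.ker →* B.toSubring :=
    { toFun := fun u => ⟨((u : IU s) : Mˣ), hkB _ (hint u u.2)⟩
      map_one' := rfl
      map_mul' := fun _ _ => rfl }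
  let θ : g.ker →* (B ⧸ m)ˣ := (π.toMonoidHom.comp f0).toHomUnits
  have hθ : ∀ u, θ u ∈ IU t := by
    intro u
    refine ⟨?_, ?_⟩
    · exact int_map B.toSubring hsB π _ (hkB _ (hint u u.2)) (u : IU s).2.1
    · rw [← map_inv]
      exact int_map B.toSubring hsB π _ (hkB _ (hint (u⁻¹ : g.ker) (u⁻¹ : g.ker).2)) (u : IU s).2.2
  have hθi : Function.Injective θ := by
    rw [injective_iff_map_eq_one]
    intro u hu
    have h1 : π (f0 u) = 1 := congrArg Units.val hu
    by_contra hne
    have h2 : (((u : IU s) : Mˣ) : M) - 1 ≠ 0 := by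
      intro h
      apply hne
      apply Subtype.ext
      apply Subtype.ext
      apply Units.ext
      exact sub_eq_zero.mp h
    have h3 : IsIntegral k ((((u : IU s) : Mˣ) : M) - 1) := (hint u u.2).sub isIntegral_one
    have h4 : IsIntegral k ((((u : IU s) : Mˣ) : M) - 1)⁻¹ := h3.inv
    have h5 : (⟨_, hkB _ h3⟩ : B.toSubring) * ⟨_, hkB _ h4⟩ = 1 := Subtype.ext (mul_inv_cancel₀ h2)
    have h6 : (⟨_, hkB _ h3⟩ : B.toSubring) = f0 u - 1 := rfl
    have h7 := congrArg π h5
    rw [map_mul, h6, map_sub, h1, map_one, sub_self, zero_mul] at h7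
    exact zero_ne_one h7
  have hker : Group.FG g.ker := by
    refine fin_of_inj (θ.codRestrict (IU t) hθ) ?_ hIt
    intro x y hxy
    exact hθi (congrArg Subtype.val hxy)
  have htar : Group.FG ((ι₁ → Multiplicative ℤ) × (ι₂ → Multiplicative ℤ)) := by
    rw [fg_iff_mod]
    have : Module.Finite ℤ ((ι₁ → ℤ) × (ι₂ → ℤ)) := inferInstance
    exact this
  exact (Group.fg_iff_subgroup_fg _).mp (fin_of_ker g htar hker)

end Final

end Pool.Agent.N49.FG
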